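import Pool.Agent.Y52.SJ.Stm3

/-!
# SJ-PRD: product of planar symplectic maps
-/

set_option autoImplicit false

namespace Pool.Agent.Y907.SJ

open Pool.Agent.Y52.SJ

/-- the `k`-th plane -/
noncomputable def pr {m : ℕ} (k : Fin m) : (Fin m → ℝ) × (Fin m → ℝ) →L[ℝ] ℝ × ℝ :=
  ((ContinuousLinearMap.proj k).comp (ContinuousLinearMap.fst ℝ (Fin m → ℝ) (Fin m → ℝ))).prod
    ((ContinuousLinearMap.proj k).comp (ContinuousLinearMap.snd ℝ (Fin m → ℝ) (Fin m → ℝ)))

theorem main : Pool.Agent.Y52.SJ.S_PRD := by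
  intro σ hσ hinj hsym m
  have hpr : ∀ k : Fin m, ContDiff ℝ ((⊤ : ℕ∞) : WithTop ℕ∞)
      (fun z : (Fin m → ℝ) × (Fin m → ℝ) => (z.1 k, z.2 k)) :=
    fun k => (pr k).contDiff
  refine ⟨?_, ?_, ?_⟩
  · apply ContDiff.prodMk
    · exact contDiff_pi.2 fun k => (contDiff_fst.comp (hσ.comp (hpr k)))
    · exact contDiff_pi.2 fun k => (contDiff_snd.comp (hσ.comp (hpr k)))
  · intro z w h
    simp only [Prod.mk.injEq] at h
    obtain ⟨h1, h2⟩ := h
    have h3 : ∀ k, (z.1 k, z.2 k) = (w.1 k, w.2 k) := by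
      intro k
      apply hinj
      exact Prod.ext (congrFun h1 k) (congrFun h2 k)
    apply Prod.ext
    · funext k
      exact (Prod.ext_iff.1 (h3 k)).1
    · funext k
      exact (Prod.ext_iff.1 (h3 k)).2
  · intro z u v
    have h0 : ∀ k : Fin m, HasFDerivAt (fun z : (Fin m → ℝ) × (Fin m → ℝ) => σ (z.1 k, z.2 k))
        ((fderiv ℝ σ (z.1 k, z.2 k)).comp (pr k)) z := by
      intro k
      have h1 : HasFDerivAt σ (fderiv ℝ σ (z.1 k, z.2 k)) (pr k z) :=
        ((hσ.differentiable (by simp)) _).hasFDerivAt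
      exact h1.comp z (pr k).hasFDerivAt
    have hD : HasFDerivAt (fun z : (Fin m → ℝ) × (Fin m → ℝ) =>
        ((fun k => (σ (z.1 k, z.2 k)).1, fun k => (σ (z.1 k, z.2 k)).2) :
        (Fin m → ℝ) × (Fin m → ℝ)))
        ((ContinuousLinearMap.pi fun k => (ContinuousLinearMap.fst ℝ ℝ ℝ).comp
          ((fderiv ℝ σ (z.1 k, z.2 k)).comp (pr k))).prod
        (ContinuousLinearMap.pi fun k => (ContinuousLinearMap.snd ℝ ℝ ℝ).comp
          ((fderiv ℝ σ (z.1 k, z.2 k)).comp (pr k)))) z := by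
      apply HasFDerivAt.prodMk
      · rw [hasFDerivAt_pi]
        intro k
        exact hasFDerivAt_fst.comp z (h0 k)
      · rw [hasFDerivAt_pi]
        intro k
        exact hasFDerivAt_snd.comp z (h0 k)
    rw [hD.fderiv]
    unfold std
    apply Finset.sum_congr rfl
    intro k _
    exact hsym (z.1 k, z.2 k) (u.1 k, u.2 k) (v.1 k, v.2 k)

end Pool.Agent.Y907.SJ
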